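import Mathlib
import Pool.Agent.H91.HilbIndex

set_option autoImplicit false

namespace Pool.Agent.Results.MP_8db9bd_an.HilbertIndex

variable {X : Type} [NormedAddCommGroup X] [NormedSpace ℂ X]

/-- norm of the homogeneous polynomial `x ↦ A (x, …, x)`: supremum over the unit sphere -/
noncomputable def polyNorm {k : ℕ} (A : ContinuousMultilinearMap ℂ (fun _ : Fin k => X) X) : ℝ :=
  ⨆ x : {x : X // ‖x‖ = 1}, ‖A (fun _ => x.1)‖

/-- numerical radius of the homogeneous polynomial `x ↦ A (x, …, x)` -/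
noncomputable def numRadius {k : ℕ} (A : ContinuousMultilinearMap ℂ (fun _ : Fin k => X) X) : ℝ :=
  ⨆ p : {p : X × (X →L[ℂ] ℂ) // ‖p.1‖ = 1 ∧ ‖p.2‖ = 1 ∧ p.2 p.1 = 1},
    ‖p.1.2 (A (fun _ => p.1.1))‖

/-- the polynomial numerical index of order `k` -/
noncomputable def polyIndex (X : Type) [NormedAddCommGroup X] [NormedSpace ℂ X] (k : ℕ) : ℝ :=
  sInf {r : ℝ | ∃ A : ContinuousMultilinearMap ℂ (fun _ : Fin k => X) X,
    polyNorm A = 1 ∧ numRadius A = r}

theorem result (H : Type) [NormedAddCommGroup H] [InnerProductSpace ℂ H] [CompleteSpace H]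
    (k : ℕ) (hk : 2 ≤ k) :
    (2 ≤ Module.rank ℂ H →
      polyIndex H k = (k : ℝ) ^ ((k : ℝ) / 2) / ((k : ℝ) + 1) ^ (((k : ℝ) + 1) / 2)) ∧
    (Module.rank ℂ H = 1 → polyIndex H k = 1) :=
  ⟨Pool.Agent.H91.HilbIndex.idx_two k hk, Pool.Agent.H91.HilbIndex.idx_one k⟩

end Pool.Agent.Results.MP_8db9bd_an.HilbertIndex
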